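import Pool.Agent.V11290.UL.Uni

/-! Order and leading coefficient as a limit. -/

set_option autoImplicit false

namespace Pool.Agent.V11290.UL

open Filter Topology Set

theorem order_pow (x : ℂ) (r : ℤ) :
    meromorphicOrderAt (fun s : ℂ => (s - x) ^ r) x = (r : WithTop ℤ) := by
  rw [meromorphicOrderAt_eq_int_iff (by fun_prop)]
  refine ⟨fun _ => 1, analyticAt_const, one_ne_zero, ?_⟩
  filter_upwards with s
  simp

theorem lead_iff {F : ℂ → ℂ} {x : ℂ} (hF : MeromorphicAt F x) (r : ℤ) {B : ℂ} (hB : B ≠ 0) :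
    (meromorphicOrderAt F x = (r : WithTop ℤ) ∧ meromorphicTrailingCoeffAt F x = B) ↔
      Tendsto (fun s => F s / (s - x) ^ r) (𝓝[≠] x) (𝓝 B) := by
  have key : meromorphicOrderAt F x = (r : WithTop ℤ) →
      Tendsto (fun s => F s / (s - x) ^ r) (𝓝[≠] x) (𝓝 (meromorphicTrailingCoeffAt F x)) := by
    intro h
    have h1 := hF.tendsto_nhds_meromorphicTrailingCoeffAt
    rw [h] at h1
    refine h1.congr fun s => ?_
    simp only [WithTop.untop₀_coe, Pi.smul_apply', smul_eq_mul, zpow_neg]
    rw [div_eq_mul_inv, mul_comm]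
    rfl
  constructor
  · rintro ⟨h1, h2⟩
    rw [← h2]
    exact key h1
  · intro h
    have hG : MeromorphicAt (fun s => F s / (s - x) ^ r) x := by
      have h3 : MeromorphicAt (fun s : ℂ => (s - x) ^ r) x := by fun_prop
      exact hF.div h3
    have h0 : meromorphicOrderAt (fun s => F s / (s - x) ^ r) x = 0 :=
      (tendsto_ne_zero_iff_meromorphicOrderAt_eq_zero hG).1 ⟨B, hB, h⟩
    have h3 : MeromorphicAt (fun s : ℂ => (s - x) ^ r) x := by fun_prop
    have h4 : meromorphicOrderAt F x = (r : WithTop ℤ) := by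
      have h5 : F =ᶠ[𝓝[≠] x] (fun s => F s / (s - x) ^ r) * (fun s : ℂ => (s - x) ^ r) := by
        filter_upwards [self_mem_nhdsWithin] with s hs
        have : s - x ≠ 0 := sub_ne_zero.2 hs
        simp only [Pi.mul_apply]
        field_simp
      rw [meromorphicOrderAt_congr h5, meromorphicOrderAt_mul hG h3, h0, zero_add, order_pow]
    exact ⟨h4, tendsto_nhds_unique (key h4) h⟩

end Pool.Agent.V11290.UL
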