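import Pool.Agent.V11290.UL.Law
import Pool.Agent.W371.UR.Full
import Pool.Agent.W125.UR.Sing
import Pool.Agent.W349.UR.NU
import Pool.Agent.W376.UR.HHm

/-! Rotations by less than a right angle: the law holds exactly if there are no zeros and poles on the
real axis to the right of the central point. -/

set_option autoImplicit false

namespace Pool.Agent.V11290.UL

open Complex Filter Topology Set
open Pool.Agent.W189.ML Pool.Agent.W189.LC Pool.Agent.W187.UR

variable {ι : Type} {lam c : ι → ℝ} {Φ : ℂ → ℂ}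

theorem hhh : S_HH := Pool.Agent.W376.UR.hh Pool.Agent.W349.UR.nu

/-- the law without zeros and poles to the right, for every angle -/
theorem low_full [Countable ι] (D : MData lam c Φ) {m : ℤ} (hm : meromorphicOrderAt Φ 0 = m)
    (hz : ∀ x ∈ Ioc (0 : ℝ) 1, meromorphicOrderAt Φ (x : ℂ) = 0) {γ : ℝ} (hγ : 0 ≤ γ) :
    ∃ C T₀ : ℝ, ∀ T ≥ T₀, |rmean lam (fun i => -c i) γ T - m * Real.log T| ≤ C := by
  have hz' : ∀ x ∈ Icc (0 : ℝ) 2, x ≠ 0 → meromorphicOrderAt Φ (x : ℂ) = 0 := by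
    intro x hx hx0
    by_cases h : x ≤ 1
    · exact hz x ⟨lt_of_le_of_ne hx.1 (Ne.symm hx0), h⟩
    · push Not at h
      exact D.order_right (by simpa using h)
  obtain ⟨Q, hQa, hQr, hQ2, htr⟩ := D.factor (x₀ := 0) (x₁ := 0) le_rfl le_rfl zero_le_one
    (m := m) (by simpa using hm) hz'
  refine Pool.Agent.W371.UR.full lam (fun i => -c i) (fun _ => 0) D.sdata γ hγ m Q hQa
    (fun x hx => mem_slit (hQr x hx)) ?_ ?_ ?_
  · have := (log_im (hQr 2 ⟨by norm_num, le_rfl⟩)).1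
    simpa using this
  · filter_upwards [hQ2] with w hw
    rw [ser_neg, zero_sub, neg_neg, hw]
    simp
  · have h2 : ser lam (fun i => -c i) = fun w => -ser lam c w := funext fun w => ser_neg lam c w
    rw [h2]
    exact (D.ser_diff (w := 2) (by norm_num)).continuousAt.neg

/-- the contribution of the rightmost zero or pole -/
theorem low_sing [Countable ι] (D : MData lam c Φ) {x₀ x₁ : ℝ} (h0 : 0 ≤ x₁)
    (h01 : x₁ < x₀) (h1 : x₀ ≤ 1) {m : ℤ} (hm : meromorphicOrderAt Φ (x₀ : ℂ) = m)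
    (hz : ∀ x ∈ Icc x₁ 2, x ≠ x₀ → meromorphicOrderAt Φ (x : ℂ) = 0) {γ : ℝ} (hγ : 0 ≤ γ)
    (hγ2 : γ < Real.pi / 2) :
    ∃ C T₀ : ℝ, ∀ T ≥ T₀,
      |rmean lam (fun i => -c i) γ T - m * (Real.log T + (HH (x₀ * T + γ * I)).re)| ≤
        C * Real.exp (Real.exp (x₁ * T)) := by
  obtain ⟨Q, hQa, hQr, hQ2, htr⟩ := D.factor h0 h01.le h1 hm hz
  refine Pool.Agent.W125.UR.sing lam (fun i => -c i) (fun _ => 0) D.sdata γ hγ hγ2 x₁ x₀ h0 h01 h1
    m Q hQa (fun x hx => mem_slit (hQr x hx)) ?_ ?_ ?_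
  · have := (log_im (hQr 2 ⟨by linarith, le_rfl⟩)).1
    simpa using this
  · filter_upwards [hQ2] with w hw
    rw [ser_neg, zero_sub, neg_neg, hw]
  · have h2 : ser lam (fun i => -c i) = fun w => -ser lam c w := funext fun w => ser_neg lam c w
    rw [h2]
    exact (D.ser_diff (w := 2) (by norm_num)).continuousAt.neg

/-- comparison of the double exponentials (copied from `W187.UR.Np2`) -/
theorem gap3 {y x₀ κ D : ℝ} (hy : y < x₀) (hx : 0 < x₀) (hκ : 0 < κ) :
    ∀ᶠ T : ℝ in atTop, Real.exp (y * T) + D + D * T ≤ κ * Real.exp (x₀ * T) - 2 * (x₀ * T) := by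
  have e0 : Tendsto (fun T : ℝ => (x₀ - y) * T) atTop atTop :=
    tendsto_id.const_mul_atTop (by linarith)
  have e1 := (Real.tendsto_exp_atTop.comp e0).eventually (eventually_ge_atTop (2 / κ))
  have e2 : Tendsto (fun T : ℝ => x₀ * T) atTop atTop := tendsto_id.const_mul_atTop hx
  have e3 := e2.eventually (lin_le_exp (2 / κ * ((2 * |D| + 2 * x₀) / x₀)))
  filter_upwards [e1, e3, eventually_ge_atTop (1 : ℝ)] with T h1 h2 h3
  simp only [Function.comp_apply] at h1
  have h4 : Real.exp (y * T) ≤ κ / 2 * Real.exp (x₀ * T) := by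
    have h5 : Real.exp (x₀ * T) = Real.exp (y * T) * Real.exp ((x₀ - y) * T) := by
      rw [← Real.exp_add]; congr 1; ring
    rw [h5]
    have h6 : 1 ≤ κ / 2 * Real.exp ((x₀ - y) * T) := by
      rw [div_le_iff₀ hκ] at h1
      linarith
    have h7 := Real.exp_pos (y * T)
    calc Real.exp (y * T) = Real.exp (y * T) * 1 := (mul_one _).symm
      _ ≤ Real.exp (y * T) * (κ / 2 * Real.exp ((x₀ - y) * T)) := by gcongr
      _ = _ := by ring
  have h5 : 2 / κ * ((2 * |D| + 2 * x₀) / x₀) * (x₀ * T) = 2 / κ * ((2 * |D| + 2 * x₀) * T) := by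
    field_simp
  rw [h5] at h2
  have h6 : (2 * |D| + 2 * x₀) * T ≤ κ / 2 * Real.exp (x₀ * T) := by
    have h7 : 2 / κ * ((2 * |D| + 2 * x₀) * T) * (κ / 2) = (2 * |D| + 2 * x₀) * T := by
      field_simp
    have h8 := mul_le_mul_of_nonneg_right h2 (by positivity : 0 ≤ κ / 2)
    rw [h7] at h8
    linarith
  have h7 : D + D * T ≤ 2 * |D| * T := by
    have h8 := le_abs_self D
    have h9 := abs_nonneg D
    nlinarith
  nlinarith

/-- the growth of the mean if there is a zero or a pole to the right -/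
theorem low_large [Countable ι] (D : MData lam c Φ) {x₀ x₁ : ℝ} (hx1 : 0 ≤ x₁)
    (hx3' : x₁ < x₀) (h1 : x₀ ≤ 1) {m : ℤ} (hm0 : m ≠ 0) (hm : meromorphicOrderAt Φ (x₀ : ℂ) = m)
    (hz : ∀ x ∈ Icc x₁ 2, x ≠ x₀ → meromorphicOrderAt Φ (x : ℂ) = 0) {γ : ℝ} (hγ : 0 ≤ γ)
    (hγ2 : γ < Real.pi / 2) {y : ℝ} (hy : y < x₀) (B : ℝ) :
    ∃ᶠ T : ℝ in atTop, Real.exp (Real.exp (y * T)) + B + B * T ≤
      (m.sign : ℝ) * rmean lam (fun i => -c i) γ T := by
  have h0 : 0 < x₀ := by linarith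
  obtain ⟨C, T₀, hC⟩ := low_sing D hx1 hx3' h1 hm hz hγ hγ2
  have hκ : 0 < Real.cos γ := Real.cos_pos_of_mem_Ioo ⟨by linarith [Real.pi_pos], hγ2⟩
  have hsg : (m.sign : ℝ) * (m : ℝ) = |(m : ℝ)| := by
    have h2 := Int.sign_mul_self m
    have h3 : ((m.sign * m : ℤ) : ℝ) = (|m| : ℤ) := by rw [h2, Int.natCast_natAbs]
    push_cast at h3
    exact h3
  have hsg1 : |(m.sign : ℝ)| ≤ 1 := by
    rcases Int.sign_trichotomy m with h | h | h <;> rw [h] <;> simp
  have hm1' : (1 : ℝ) ≤ |(m : ℝ)| := by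
    have := Int.one_le_abs hm0
    exact_mod_cast this
  -- the frequently large values
  have hfr : ∃ᶠ T : ℝ in atTop, Real.exp (Real.exp (x₀ * T) * Real.cos γ - 2 * (x₀ * T)) ≤
      (HH (x₀ * T + γ * Complex.I)).re := by
    have e1 : Tendsto (fun x : ℝ => x / x₀) atTop atTop := tendsto_id.atTop_div_const h0
    refine e1.frequently ?_
    refine (hhh γ hγ hγ2).mono fun x hx => ?_
    have e2 : x₀ * (x / x₀) = x := by field_simp
    have e3 : (x₀ : ℂ) * ((x / x₀ : ℝ) : ℂ) = (x : ℂ) := by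
      rw [← Complex.ofReal_mul, e2]
    rw [e2, e3]
    exact hx
  set y' : ℝ := max y x₁ with hy'
  have hy1 : y' < x₀ := max_lt hy hx3'
  have hg := gap3 (D := |C| + |B| + 2) hy1 h0 hκ
  refine (hfr.and_eventually (hg.and ((eventually_ge_atTop T₀).and
    (eventually_ge_atTop (1 : ℝ))))).mono ?_
  rintro T ⟨h2, h3, h4, h5⟩
  have h6 := hC T h4
  have hlogT0 : 0 ≤ Real.log T := Real.log_nonneg h5
  set W : ℝ := Real.exp (y' * T) with hW
  set R : ℝ := (HH (x₀ * T + γ * Complex.I)).re with hR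
  set S : ℝ := rmean lam (fun i => -c i) γ T with hS
  have h6' : |(m.sign : ℝ) * S - |(m : ℝ)| * (Real.log T + R)| ≤
      C * Real.exp (Real.exp (x₁ * T)) := by
    have e1 : (m.sign : ℝ) * S - |(m : ℝ)| * (Real.log T + R) =
        (m.sign : ℝ) * (S - m * (Real.log T + R)) := by
      rw [← hsg]; ring
    rw [e1, abs_mul]
    calc |(m.sign : ℝ)| * |S - m * (Real.log T + R)| ≤ 1 * |S - m * (Real.log T + R)| := by
          gcongr
      _ = |S - m * (Real.log T + R)| := one_mul _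
      _ ≤ _ := h6
  have h6'' := (abs_le.mp h6').1
  have h7 : Real.exp (W + (|C| + |B| + 2) + (|C| + |B| + 2) * T) ≤ R := by
    refine le_trans (Real.exp_le_exp.2 ?_) h2
    linarith
  have hR0 : 0 ≤ R := (Real.exp_pos _).le.trans h7
  have h8 : Real.exp (x₁ * T) ≤ W := Real.exp_le_exp.2
    (mul_le_mul_of_nonneg_right (le_max_right _ _) (by linarith))
  have h10 : Real.exp (y * T) ≤ W := Real.exp_le_exp.2
    (mul_le_mul_of_nonneg_right (le_max_left _ _) (by linarith))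
  have h11 : Real.exp (Real.exp (x₁ * T)) ≤ Real.exp W := Real.exp_le_exp.2 h8
  have h12 : Real.exp (Real.exp (y * T)) ≤ Real.exp W := Real.exp_le_exp.2 h10
  have h13 : Real.exp W * (1 + |C| + |B| + |B| * T) ≤ R := by
    refine le_trans ?_ h7
    have h13' : W + (|C| + |B| + 2) + (|C| + |B| + 2) * T =
        W + ((|C| + |B| + 2) + (|C| + |B| + 2) * T) := by ring
    rw [h13', Real.exp_add]
    refine mul_le_mul_of_nonneg_left ?_ (Real.exp_pos _).le
    have h14 := Real.add_one_le_exp ((|C| + |B| + 2) + (|C| + |B| + 2) * T)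
    have h15 := abs_nonneg C
    have h16 := abs_nonneg B
    nlinarith
  have h15 : C * Real.exp (Real.exp (x₁ * T)) ≤ |C| * Real.exp W := by
    calc C * Real.exp (Real.exp (x₁ * T)) ≤ |C| * Real.exp (Real.exp (x₁ * T)) := by
          gcongr; exact le_abs_self C
      _ ≤ |C| * Real.exp W := by gcongr
  have h16 : R ≤ |(m : ℝ)| * (Real.log T + R) := by nlinarith
  have h17 : B + B * T ≤ Real.exp W * (|B| + |B| * T) := by
    have h18 : B + B * T ≤ |B| + |B| * T := by
      have := le_abs_self B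
      nlinarith
    have h19 : 1 ≤ Real.exp W := Real.one_le_exp (Real.exp_pos _).le
    have h20 : 0 ≤ |B| + |B| * T := by positivity
    nlinarith
  have h18 : Real.exp W * (1 + |C| + |B| + |B| * T) =
      Real.exp W + |C| * Real.exp W + Real.exp W * (|B| + |B| * T) := by ring
  linarith

end Pool.Agent.V11290.UL
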