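import Pool.Agent.V11290.UL.Low

/-! From the series over the prime powers to the logarithms of the local factors at the central
point. -/

set_option autoImplicit false

namespace Pool.Agent.V11290.UL

open Complex Filter Topology Set
open Pool.Agent.W189.ML Pool.Agent.W189.LC Pool.Agent.W187.UR

/-- the kernel -/
noncomputable def ker (c u : ℝ) : ℝ := Real.cos (c * u) * om u

theorem om_diff : DifferentiableAt ℝ om 0 := by
  have h1 : DifferentiableAt ℝ Real.Gamma (1 + 0) := by
    refine Real.differentiableAt_Gamma fun m => ?_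
    have : (0 : ℝ) ≤ m := m.cast_nonneg
    linarith
  have h2 : DifferentiableAt ℝ (fun v : ℝ => Real.Gamma (1 + v)) 0 :=
    DifferentiableAt.comp (f := fun v : ℝ => 1 + v) (g := Real.Gamma) (0 : ℝ) h1 (by fun_prop)
  have h3 : Real.Gamma (1 + 0) ≠ 0 := by simp
  exact DifferentiableAt.inv h2 h3

theorem ker_zero (c : ℝ) : ker c 0 = 1 := by
  unfold ker om
  simp

theorem ker_abs (c : ℝ) {u : ℝ} (hu : 0 ≤ u) : |ker c u| ≤ om u := by
  unfold ker
  rw [abs_mul, abs_of_nonneg (om_nonneg hu)]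
  calc |Real.cos (c * u)| * om u ≤ 1 * om u := by
        gcongr
        · exact om_nonneg hu
        · exact Real.abs_cos_le_one _
    _ = om u := one_mul _

theorem ker_const (c : ℝ) {u : ℝ} (hu : 0 ≤ u) : |ker c u| ≤ Real.exp 1 + 1 :=
  (ker_abs c hu).trans (om_le_const hu)

theorem ker_lin (c : ℝ) : ∃ K : ℝ, 0 ≤ K ∧ ∀ u : ℝ, 0 ≤ u → |ker c u - 1| ≤ K * u := by
  have hd : DifferentiableAt ℝ (fun u : ℝ => ker c u) 0 := by
    unfold ker
    exact DifferentiableAt.mul (by fun_prop) om_diff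
  obtain ⟨K, hK⟩ := hd.isBigO_sub.bound
  obtain ⟨δ, hδ, hball⟩ := Metric.eventually_nhds_iff.1 hK
  have hexp : 0 < Real.exp 1 := Real.exp_pos 1
  refine ⟨|K| + (Real.exp 1 + 2) / δ, by positivity, fun u hu => ?_⟩
  by_cases hd : u < δ
  · have h1 := hball (y := u) (by rw [Real.dist_eq, sub_zero, abs_of_nonneg hu]; exact hd)
    rw [ker_zero, sub_zero, Real.norm_eq_abs, Real.norm_eq_abs, abs_of_nonneg hu] at h1
    have h2 : K * u ≤ |K| * u := mul_le_mul_of_nonneg_right (le_abs_self K) hu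
    have h3 : 0 ≤ (Real.exp 1 + 2) / δ * u := by positivity
    calc _ ≤ K * u := h1
      _ ≤ |K| * u := h2
      _ ≤ _ := by rw [add_mul]; linarith
  · push Not at hd
    have h1 : |ker c u - 1| ≤ Real.exp 1 + 2 := by
      calc _ ≤ |ker c u| + |(1 : ℝ)| := abs_sub _ _
        _ ≤ (Real.exp 1 + 1) + 1 := by
            rw [abs_one]; linarith [ker_const c hu]
        _ = _ := by ring
    have h2 : Real.exp 1 + 2 ≤ (Real.exp 1 + 2) / δ * u := by
      rw [div_mul_eq_mul_div, le_div_iff₀ hδ]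
      exact mul_le_mul_of_nonneg_left hd (by positivity)
    have h3 : 0 ≤ |K| * u := mul_nonneg (abs_nonneg K) hu
    rw [add_mul]; linarith

/-- the difference of the kernel at `2u` and at `u` -/
theorem ker_two (c : ℝ) : ∃ K : ℝ, 0 ≤ K ∧ ∀ u : ℝ, 0 ≤ u →
    |ker c (2 * u) - ker c u| ≤ K * (u * Real.exp (-u)) := by
  obtain ⟨K, hK, h⟩ := ker_lin c
  set A : ℝ := Real.exp (Real.exp 1) + 1 with hA
  have hA0 : 0 ≤ A := by positivity
  refine ⟨3 * K * Real.exp 1 + 2 * A, by positivity, fun u hu => ?_⟩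
  by_cases h1 : u ≤ 1
  · have h2 := h (2 * u) (by linarith)
    have h3 := h u hu
    have h4 : |ker c (2 * u) - ker c u| ≤ 3 * K * u := by
      have h5 : ker c (2 * u) - ker c u = (ker c (2 * u) - 1) - (ker c u - 1) := by ring
      rw [h5]
      refine (abs_sub _ _).trans ?_
      linarith
    have h5 : u ≤ Real.exp 1 * (u * Real.exp (-u)) := by
      have h6 : 1 ≤ Real.exp 1 * Real.exp (-u) := by
        rw [← Real.exp_add]
        exact Real.one_le_exp (by linarith)
      calc u = u * 1 := (mul_one u).symm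
        _ ≤ u * (Real.exp 1 * Real.exp (-u)) := by gcongr
        _ = _ := by ring
    have h6 : 0 ≤ 2 * A * (u * Real.exp (-u)) := by positivity
    calc _ ≤ 3 * K * u := h4
      _ ≤ 3 * K * (Real.exp 1 * (u * Real.exp (-u))) := by gcongr
      _ ≤ _ := by linarith
  · push Not at h1
    have h2 : |ker c (2 * u)| ≤ A * Real.exp (-u) := by
      refine (ker_abs c (by linarith)).trans ?_
      refine (om_le (a := 1) zero_le_one (by linarith)).trans ?_
      gcongr
      linarith
    have h3 : |ker c u| ≤ A * Real.exp (-u) := by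
      refine (ker_abs c hu).trans ?_
      have := om_le (a := 1) (v := u) zero_le_one hu
      rw [one_mul] at this
      exact this
    have h4 : Real.exp (-u) ≤ u * Real.exp (-u) := by
      have := Real.exp_pos (-u)
      nlinarith
    have h5 : 0 ≤ 3 * K * Real.exp 1 * (u * Real.exp (-u)) := by positivity
    calc _ ≤ |ker c (2 * u)| + |ker c u| := abs_sub _ _
      _ ≤ 2 * A * Real.exp (-u) := by linarith
      _ ≤ 2 * A * (u * Real.exp (-u)) := by gcongr
      _ ≤ _ := by linarith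

variable {P : Type} {d : ℕ} {e : ℝ} {q : P → ℝ} {b : P → Fin d → ℂ}

/-- the local factor at the central point, `∏_j (1 - b_j)` -/
noncomputable def loc (b : P → Fin d → ℂ) (v : P) : ℝ := (∏ j, (1 - b v j)).re

/-- the rotated sum of the logarithms of the local factors -/
noncomputable def logSum (q : P → ℝ) (b : P → Fin d → ℂ) (c T : ℝ) : ℝ :=
  ∑' v, Real.cos (c * (Real.log (q v) / T)) * Real.log (loc b v) /
    Real.Gamma (1 + Real.log (q v) / T)

/-- the upper bound in the theorem of Mertens for the system of primes -/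
def Mert (e : ℝ) (q : P → ℝ) : Prop :=
  ∃ C : ℝ, ∀ T : ℝ, 1 ≤ T → ∀ A : Finset P,
    ∑ v ∈ A, q v ^ (-(2 * e - 1)) * (Real.log (q v) / T * Real.exp (-(Real.log (q v) / T))) ≤ C

theorem Sys.cfd_sum (E : Sys e q b) (v : P) :
    Summable (fun k : ℕ => |cfd b (v, k)|) ∧ loc b v = Real.exp (-∑' k : ℕ, cfd b (v, k)) ∧
      Real.log (loc b v) = -∑' k : ℕ, cfd b (v, k) ∧ ∏ j, (1 - b v j) = (loc b v : ℂ) := by
  have hg : Summable fun n : ℕ => (3 / 4 : ℝ) ^ n :=
    summable_geometric_of_lt_one (by norm_num) (by norm_num)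
  have h1 : Summable (fun k : ℕ => |cfd b (v, k)|) := by
    refine Summable.of_nonneg_of_le (fun k => abs_nonneg _) (fun k => ?_)
      (hg.mul_left ((d : ℝ) * q v ^ (-(e - 1 / 2 + 0))))
    have := E.term_le le_rfl (v, k)
    simpa using this
  have h2 := (E.factor_sum (w := 0) le_rfl v).2
  have h3 : ∏ j, (1 - b v j) = exp (-((∑' k : ℕ, cfd b (v, k) : ℝ) : ℂ)) := by
    have h4 : (∑' n : ℕ, (cfd b (v, n) : ℂ) * exp (-(0 * fr q (v, n)))) =
        ((∑' k : ℕ, cfd b (v, k) : ℝ) : ℂ) := by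
      rw [Complex.ofReal_tsum]
      refine tsum_congr fun k => ?_
      simp
    rw [h4] at h2
    rw [Complex.exp_neg, h2, ← Finset.prod_inv_distrib]
    refine Finset.prod_congr rfl fun j _ => ?_
    simp
  have h4 : loc b v = Real.exp (-∑' k : ℕ, cfd b (v, k)) := by
    unfold loc
    rw [h3, ← Complex.ofReal_neg, Complex.exp_ofReal_re]
  refine ⟨h1, h4, ?_, ?_⟩
  · rw [h4, Real.log_exp]
  · rw [h3, h4]
    push_cast
    rfl

theorem Sys.loc_pos (E : Sys e q b) (v : P) : 0 < loc b v := by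
  rw [(E.cfd_sum v).2.1]
  exact Real.exp_pos _

theorem Sys.u_nonneg (E : Sys e q b) {T : ℝ} (hT : 0 < T) (v : P) : 0 ≤ Real.log (q v) / T :=
  div_nonneg (Real.log_nonneg (by linarith [E.two_le v])) hT.le

theorem fr_div (T : ℝ) (v : P) (k : ℕ) :
    fr q (v, k) / T = ((k : ℝ) + 1) * (Real.log (q v) / T) := by
  unfold fr
  ring

theorem Sys.sumf (E : Sys e q b) (c : ℝ) {T : ℝ} (hT : 0 < T) :
    Summable fun x : P × ℕ => cfd b x * ker c (fr q x / T) := by
  have h0 := (E.summable (σ := 1) (by norm_num)).mul_left (Real.exp (Real.exp T) + 1)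
  refine Summable.of_norm_bounded h0 fun x => ?_
  have hu : 0 ≤ fr q x / T := div_nonneg (E.fr_nonneg x) hT.le
  rw [norm_mul, Real.norm_eq_abs, Real.norm_eq_abs]
  have h1 := (ker_abs c hu).trans (om_le (a := T) hT.le hu)
  have h2 : T * (fr q x / T) = 1 * fr q x := by field_simp
  rw [h2] at h1
  calc |cfd b x| * |ker c (fr q x / T)| ≤
      |cfd b x| * ((Real.exp (Real.exp T) + 1) * Real.exp (-(1 * fr q x))) := by gcongr
    _ = _ := by ring

theorem Sys.sumg (E : Sys e q b) (c : ℝ) {T : ℝ} (hT : 0 < T) :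
    Summable fun x : P × ℕ => |cfd b x * ker c (Real.log (q x.1) / T)| := by
  have hg : Summable fun n : ℕ => (3 / 4 : ℝ) ^ n :=
    summable_geometric_of_lt_one (by norm_num) (by norm_num)
  have h1 := ((E.sum (e - 1 / 2 + 1) (by linarith)).mul_left
    ((Real.exp (Real.exp T) + 1) * d)).mul_of_nonneg hg
    (fun v => by
      have := E.q_pos v
      show 0 ≤ (Real.exp (Real.exp T) + 1) * (d : ℝ) * q v ^ (-(e - 1 / 2 + 1))
      positivity) (fun n => by positivity)
  refine Summable.of_nonneg_of_le (fun x => abs_nonneg _) (fun x => ?_) h1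
  have hq := E.q_pos x.1
  have hu := E.u_nonneg hT x.1
  rw [abs_mul]
  have h2 := (ker_abs c hu).trans (om_le (a := T) hT.le hu)
  have h3 : Real.exp (-(T * (Real.log (q x.1) / T))) = q x.1 ^ (-(1 : ℝ)) := by
    have : T * (Real.log (q x.1) / T) = Real.log (q x.1) := by field_simp
    rw [this, Real.rpow_def_of_pos hq]
    congr 1
    ring
  rw [h3] at h2
  have h4 : |cfd b x| ≤ d * q x.1 ^ (1 / 2 - e) * (3 / 4) ^ x.2 := by
    have h5 := E.term_le (σ := 0) le_rfl x
    simp only [zero_mul, neg_zero, Real.exp_zero, mul_one, add_zero] at h5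
    have h6 : -(e - 1 / 2) = 1 / 2 - e := by ring
    rwa [h6] at h5
  calc |cfd b x| * |ker c (Real.log (q x.1) / T)| ≤
      (d * q x.1 ^ (1 / 2 - e) * (3 / 4) ^ x.2) *
        ((Real.exp (Real.exp T) + 1) * q x.1 ^ (-(1 : ℝ))) := by gcongr
    _ = (Real.exp (Real.exp T) + 1) * d * (q x.1 ^ (1 / 2 - e) * q x.1 ^ (-(1 : ℝ))) *
        (3 / 4) ^ x.2 := by ring
    _ = (Real.exp (Real.exp T) + 1) * d * q x.1 ^ (-(e - 1 / 2 + 1)) * (3 / 4) ^ x.2 := by
      rw [← Real.rpow_add hq]
      congr 3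
      ring

/-- absolute convergence of the sum -/
theorem Sys.logSum_summable (E : Sys e q b) (c : ℝ) {T : ℝ} (hT : 0 < T) :
    Summable fun v => |Real.cos (c * (Real.log (q v) / T)) * Real.log (loc b v) /
      Real.Gamma (1 + Real.log (q v) / T)| := by
  have h1 := (E.sumg c hT).prod_symm.prod
  have h2 := (E.sumg c hT).prod
  refine Summable.of_nonneg_of_le (fun v => abs_nonneg _) (fun v => ?_) h2
  have h3 : Real.cos (c * (Real.log (q v) / T)) * Real.log (loc b v) /
      Real.Gamma (1 + Real.log (q v) / T) =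
      -∑' k : ℕ, cfd b (v, k) * ker c (Real.log (q v) / T) := by
    rw [(E.cfd_sum v).2.2.1, tsum_mul_right]
    unfold ker om
    ring
  rw [h3, abs_neg]
  have h4 : Summable fun k : ℕ => ‖cfd b (v, k) * ker c (Real.log (q v) / T)‖ :=
    (E.sumg c hT).prod_factor v
  have := norm_tsum_le_tsum_norm h4
  simpa [Real.norm_eq_abs] using this

/-- **comparison of the sums** -/
theorem Sys.compare (E : Sys e q b) (hM : Mert e q) (c : ℝ) :
    ∃ C : ℝ, ∀ T : ℝ, 1 ≤ T →
      |logSum q b c T - rmean (fr q) (fun x => -cfd b x) c T| ≤ C := by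
  obtain ⟨C₁, hC₁⟩ := hM
  obtain ⟨K, hK, hk⟩ := ker_two c
  have he := E.he
  set W : ℝ := Real.exp 1 + 1 with hW
  have hW0 : 0 ≤ W := by positivity
  have hs3 := E.sum (3 * (e - 1 / 2)) (by linarith)
  refine ⟨d * K * C₁ + 2 * W * d * (16 / 9) * 4 * ∑' v, q v ^ (-(3 * (e - 1 / 2))),
    fun T hT => ?_⟩
  have hT0 : 0 < T := by linarith
  set u : P → ℝ := fun v => Real.log (q v) / T with hu
  have hu0 : ∀ v, 0 ≤ u v := fun v => E.u_nonneg hT0 v
  set mm : P → ℝ := fun v => q v ^ (-(2 * e - 1)) * (u v * Real.exp (-(u v))) with hmm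
  have hmm0 : ∀ v, 0 ≤ mm v := fun v => by
    have := E.q_pos v
    have := hu0 v
    rw [hmm]
    positivity
  have hms : Summable mm := summable_of_sum_le hmm0 (fun A => hC₁ T hT A)
  have hmt : ∑' v, mm v ≤ C₁ := hms.tsum_le_of_sum_le (fun A => hC₁ T hT A)
  have hf := E.sumf c hT0
  have hg' := E.sumg c hT0
  have hg : Summable fun x : P × ℕ => cfd b x * ker c (u x.1) := hg'.of_abs
  have e1 : logSum q b c T = -∑' x : P × ℕ, cfd b x * ker c (u x.1) := by
    rw [hg.tsum_prod, ← tsum_neg]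
    unfold logSum
    refine tsum_congr fun v => ?_
    simp only
    rw [(E.cfd_sum v).2.2.1, tsum_mul_right]
    unfold ker om
    ring
  have e2 : rmean (fr q) (fun x => -cfd b x) c T = -∑' x : P × ℕ, cfd b x * ker c (fr q x / T) := by
    unfold rmean
    rw [← tsum_neg]
    refine tsum_congr fun x => ?_
    unfold ker
    ring
  have hh := hf.sub hg
  have e3 : logSum q b c T - rmean (fr q) (fun x => -cfd b x) c T =
      ∑' x : P × ℕ, (cfd b x * ker c (fr q x / T) - cfd b x * ker c (u x.1)) := by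
    rw [hf.tsum_sub hg, e1, e2]
    ring
  rw [e3, hh.tsum_prod]
  have hin : ∀ v : P, ‖∑' k : ℕ, (cfd b (v, k) * ker c (fr q (v, k) / T) -
      cfd b (v, k) * ker c (u v))‖ ≤
      d * K * mm v + 2 * W * d * (16 / 9) * 4 * q v ^ (-(3 * (e - 1 / 2))) := by
    intro v
    have hq := E.q_pos v
    set y : ℝ := q v ^ (1 / 2 - e) with hy
    have hy0 : 0 ≤ y := by positivity
    have hy1 : y ≤ 3 / 4 := by
      have := E.pow_le (τ := e - 1 / 2) (by linarith) v
      rwa [show -(e - 1 / 2) = 1 / 2 - e by ring] at this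
    have hy2 : y ^ 2 = q v ^ (-(2 * e - 1)) := by
      rw [hy, ← Real.rpow_natCast, ← Real.rpow_mul hq.le]
      congr 1
      push_cast
      ring
    have hy3 : y ^ 3 = q v ^ (-(3 * (e - 1 / 2))) := by
      rw [hy, ← Real.rpow_natCast, ← Real.rpow_mul hq.le]
      congr 1
      push_cast
      ring
    have hgeo : HasSum (fun n : ℕ => 2 * W * d * (16 / 9) * y ^ 3 * (3 / 4 : ℝ) ^ n)
        (2 * W * d * (16 / 9) * y ^ 3 * (1 - 3 / 4)⁻¹) :=
      (hasSum_geometric_of_lt_one (by norm_num) (by norm_num)).mul_left _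
    have hone : HasSum (fun n : ℕ => if n = 1 then d * K * mm v else 0) (d * K * mm v) :=
      hasSum_ite_eq 1 _
    have hb := hone.add hgeo
    have hfin : d * K * mm v + 2 * W * d * (16 / 9) * y ^ 3 * (1 - 3 / 4)⁻¹ =
        d * K * mm v + 2 * W * d * (16 / 9) * 4 * q v ^ (-(3 * (e - 1 / 2))) := by
      rw [hy3]
      ring
    rw [← hfin]
    refine tsum_of_norm_bounded hb fun k => ?_
    rw [← mul_sub, norm_mul, Real.norm_eq_abs, Real.norm_eq_abs, fr_div]
    have hc := E.cfd_le (v, k)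
    simp only at hc
    rw [← hy] at hc
    have huv := hu0 v
    have hgn : 0 ≤ 2 * W * d * (16 / 9) * y ^ 3 * (3 / 4 : ℝ) ^ k := by positivity
    match k with
    | 0 =>
      have : ((0 : ℕ) : ℝ) + 1 = 1 := by norm_num
      rw [this, one_mul]
      simp only [hu, sub_self, abs_zero, mul_zero]
      rw [if_neg (by norm_num), zero_add]
      exact hgn
    | 1 =>
      rw [if_pos rfl]
      have h2 : ((1 : ℕ) : ℝ) + 1 = 2 := by norm_num
      rw [h2]
      have h3 := hk (u v) huv
      calc |cfd b (v, 1)| * |ker c (2 * (Real.log (q v) / T)) - ker c (u v)| ≤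
          (d * y ^ (1 + 1)) * (K * (u v * Real.exp (-(u v)))) := by
            gcongr
        _ = d * K * mm v := by
            rw [show (1 + 1 : ℕ) = 2 from rfl, hy2, hmm]
            ring
        _ ≤ _ := le_add_of_nonneg_right hgn
    | (n + 2) =>
      rw [if_neg (by omega), zero_add]
      have h4 : |ker c (((n + 2 : ℕ) + 1) * (Real.log (q v) / T)) - ker c (u v)| ≤ 2 * W := by
        refine (abs_sub _ _).trans ?_
        have h5 := ker_const c (u := ((n + 2 : ℕ) + 1) * (Real.log (q v) / T)) (by positivity)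
        have h6 := ker_const c huv
        rw [← hW] at h5 h6
        linarith
      calc |cfd b (v, n + 2)| * |ker c (((n + 2 : ℕ) + 1) * (Real.log (q v) / T)) - ker c (u v)| ≤
          (d * y ^ (n + 2 + 1)) * (2 * W) := by gcongr
        _ = 2 * W * d * y ^ 3 * y ^ n := by ring
        _ ≤ 2 * W * d * y ^ 3 * (3 / 4) ^ n := by gcongr
        _ = _ := by rw [pow_add (3 / 4 : ℝ) n 2]; ring
  have hbs : HasSum (fun v => d * K * mm v + 2 * W * d * (16 / 9) * 4 * q v ^ (-(3 * (e - 1 / 2))))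
      (d * K * ∑' v, mm v + 2 * W * d * (16 / 9) * 4 * ∑' v, q v ^ (-(3 * (e - 1 / 2)))) :=
    (hms.hasSum.mul_left _).add (hs3.hasSum.mul_left _)
  refine (tsum_of_norm_bounded hbs hin).trans ?_
  gcongr

end Pool.Agent.V11290.UL
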