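import Pool.Agent.V11290.UL.Sys

/-! The rotated law for every Euler product: order and leading coefficient at the central point,
without any hypothesis on the zeros and poles. -/

set_option autoImplicit false

namespace Pool.Agent.V11290.UL

open Complex Filter Topology Set
open Pool.Agent.W189.ML Pool.Agent.W189.LC Pool.Agent.W187.UR

/-- the number of the zeros minus the number of the poles of `Φ` on `(0, 1/2]` -/
noncomputable def exc (Φ : ℂ → ℂ) : ℤ :=
  ∑ᶠ x ∈ Ioc (0 : ℝ) (1 / 2), (meromorphicOrderAt Φ (x : ℂ)).untop₀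

variable {ι : Type} {lam c : ι → ℝ} {Φ : ℂ → ℂ}

theorem exc_eq (hr : ∀ x : ℝ, 1 / 2 < x → meromorphicOrderAt Φ (x : ℂ) = 0) :
    ∑ᶠ x ∈ Ioc (0 : ℝ) 1, (meromorphicOrderAt Φ (x : ℂ)).untop₀ = exc Φ := by
  unfold exc
  refine finsum_mem_inter_support_eq' _ _ _ fun x hx => ?_
  rw [Function.mem_support] at hx
  constructor
  · intro h
    refine ⟨h.1, ?_⟩
    by_contra h3
    push Not at h3
    rw [hr x h3] at hx
    simp at hx
  · exact fun h => ⟨h.1, by linarith [h.2]⟩

/-- **the rotated law**, abstract form -/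
theorem mdata_law [Countable ι] (D : MData lam c Φ)
    (hr : ∀ x : ℝ, 1 / 2 < x → meromorphicOrderAt Φ (x : ℂ) = 0) {γ : ℝ}
    (hγ : Real.pi / 2 < γ) :
    ∃ (m : ℤ) (l : ℝ), meromorphicOrderAt Φ 0 = m ∧ meromorphicTrailingCoeffAt Φ 0 = l ∧ l ≠ 0 ∧
      (fun T : ℝ => -cmean lam c γ T - (m * (Real.log T - Lam γ) - Real.log |l| +
        Real.pi * exc Φ * Complex.I)) =O[atTop] (fun T : ℝ => 1 / T) ∧
      Tendsto (fun T : ℝ => Complex.exp (-cmean lam c γ T) / (T : ℂ) ^ m) atTop
        (𝓝 (Complex.exp (-(m * Lam γ)) / l)) := by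
  have htop := D.order_ne_top (x := 0) ⟨le_rfl, by norm_num⟩
  rw [Complex.ofReal_zero] at htop
  obtain ⟨m, hm⟩ := WithTop.ne_top_iff_exists.1 htop
  obtain ⟨r₀, C, T₀, hr0, hi, hC, hT₀, h⟩ := mdata_rot D (m := m) hm.symm hγ
  rw [exc_eq hr] at hi
  -- the coefficient is real
  set l : ℂ := meromorphicTrailingCoeffAt Φ 0 with hl
  have hl0 : l ≠ 0 := by rw [← hr0]; exact Complex.exp_ne_zero _
  have hlr : l = (((-1 : ℝ) ^ (exc Φ) * Real.exp r₀.re : ℝ) : ℂ) := by
    have h1 : r₀ = (r₀.re : ℂ) + (exc Φ : ℂ) * (-(Real.pi * Complex.I)) := by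
      apply Complex.ext
      · simp
      · rw [hi]; simp; ring
    rw [← hr0]
    nth_rewrite 1 [h1]
    rw [Complex.exp_add, Complex.exp_int_mul, Complex.exp_neg, Complex.exp_pi_mul_I]
    push_cast
    norm_num
    ring
  have hlre : l = ((l.re : ℝ) : ℂ) := by
    rw [hlr, Complex.ofReal_re]
  have hlabs : Real.log |l.re| = r₀.re := by
    have h1 : |l.re| = Real.exp r₀.re := by
      rw [hlr, Complex.ofReal_re, abs_mul, Real.abs_exp]
      have : |(-1 : ℝ) ^ (exc Φ)| = 1 := by
        rw [abs_zpow]; simp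
      rw [this, one_mul]
    rw [h1, Real.log_exp]
  have hlre0 : l.re ≠ 0 := by
    intro h1
    rw [h1, Complex.ofReal_zero] at hlre
    exact hl0 hlre
  have hr₀ : -r₀ = -(Real.log |l.re| : ℂ) + Real.pi * exc Φ * Complex.I := by
    rw [hlabs]
    apply Complex.ext
    · simp
    · rw [Complex.neg_im, hi]; simp
  have hO : (fun T : ℝ => -cmean lam c γ T - (m * (Real.log T - Lam γ) - r₀)) =O[atTop]
      (fun T : ℝ => 1 / T) := by
    refine Asymptotics.IsBigO.of_bound C ?_
    filter_upwards [eventually_ge_atTop T₀] with T hT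
    have hT1 : 0 < T := by linarith
    have h5 := h T hT
    rw [Real.norm_eq_abs, abs_of_pos (by positivity : 0 < 1 / T), mul_one_div]
    exact h5
  refine ⟨m, l.re, hm.symm, hlre, hlre0, ?_, ?_⟩
  · refine hO.congr_left fun T => ?_
    linear_combination (-1 : ℂ) * hr₀
  · -- the product form
    have h1 : Tendsto (fun T : ℝ => -cmean lam c γ T - (m * (Real.log T - Lam γ) - r₀)) atTop
        (𝓝 0) := by
      refine hO.trans_tendsto ?_
      exact tendsto_const_nhds.div_atTop tendsto_id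
    have h2 : Tendsto (fun T : ℝ =>
        Complex.exp (-cmean lam c γ T - (m * (Real.log T - Lam γ) - r₀)) *
        (Complex.exp (-(m * Lam γ)) / l)) atTop (𝓝 (1 * (Complex.exp (-(m * Lam γ)) / l))) := by
      refine Tendsto.mul_const _ ?_
      have := (Complex.continuous_exp.tendsto 0).comp h1
      simpa [Function.comp_def] using this
    rw [one_mul] at h2
    rw [← hlre]
    refine h2.congr' ?_
    filter_upwards [eventually_gt_atTop 0] with T hT
    have hTc : (T : ℂ) ≠ 0 := by exact_mod_cast hT.ne'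
    have h3 : (T : ℂ) ^ m = Complex.exp (m * Real.log T) := by
      rw [Complex.exp_int_mul, ← Complex.ofReal_exp, Real.exp_log hT]
    rw [h3, ← hr0, ← Complex.exp_sub, ← Complex.exp_sub, ← Complex.exp_add]
    congr 1
    ring

/-- **the equivalence**, abstract form -/
theorem mdata_iff [Countable ι] (D : MData lam c Φ)
    (hr : ∀ x : ℝ, 1 / 2 < x → meromorphicOrderAt Φ (x : ℂ) = 0) {γ : ℝ}
    (hγ : Real.pi / 2 < γ) (r : ℕ) {B : ℝ} (hB : B ≠ 0) :
    (meromorphicOrderAt Φ 0 = ((r : ℤ) : WithTop ℤ) ∧ meromorphicTrailingCoeffAt Φ 0 = B) ↔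
    Tendsto (fun T : ℝ => Complex.exp (-cmean lam c γ T) / (T : ℂ) ^ r) atTop
      (𝓝 (Complex.exp (-(r * Lam γ)) / B)) := by
  obtain ⟨m, l, hm, hl, hl0, -, h⟩ := mdata_law D hr hγ
  constructor
  · rintro ⟨h1, h2⟩
    rw [hm] at h1
    have h3 : m = (r : ℤ) := by exact_mod_cast h1
    rw [hl] at h2
    have h4 : l = B := by exact_mod_cast h2
    subst h3
    rw [h4] at h
    simpa using h
  · intro h1
    have hlc : (l : ℂ) ≠ 0 := by exact_mod_cast hl0
    have hBc : (B : ℂ) ≠ 0 := by exact_mod_cast hB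
    set c₁ : ℂ := Complex.exp (-(m * Lam γ)) / l with hc₁
    set c₀ : ℂ := Complex.exp (-(r * Lam γ)) / B with hc₀
    have hc₁0 : c₁ ≠ 0 := div_ne_zero (Complex.exp_ne_zero _) hlc
    have hc₀0 : c₀ ≠ 0 := div_ne_zero (Complex.exp_ne_zero _) hBc
    -- the quotient
    have h2 : Tendsto (fun T : ℝ => (T : ℂ) ^ (m - r)) atTop (𝓝 (c₀ / c₁)) := by
      refine (h1.div h hc₁0).congr' ?_
      filter_upwards [eventually_gt_atTop 0] with T hT
      have hTc : (T : ℂ) ≠ 0 := by exact_mod_cast hT.ne'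
      have h3 := Complex.exp_ne_zero (-cmean lam c γ T)
      rw [zpow_sub₀ hTc, zpow_natCast]
      have h4 : (T : ℂ) ^ m ≠ 0 := zpow_ne_zero _ hTc
      have h5 : (T : ℂ) ^ r ≠ 0 := pow_ne_zero _ hTc
      simp only [Pi.div_apply]
      field_simp
    have h3 : Tendsto (fun T : ℝ => T ^ (m - r)) atTop (𝓝 ‖c₀ / c₁‖) := by
      refine h2.norm.congr' ?_
      filter_upwards [eventually_gt_atTop 0] with T hT
      rw [norm_zpow, Complex.norm_real, Real.norm_eq_abs, abs_of_pos hT]
    have h4 : m - r = 0 := by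
      rcases lt_trichotomy (m - r) 0 with h5 | h5 | h5
      · exfalso
        have h6 : Tendsto (fun T : ℝ => T ^ (m - r)) atTop (𝓝 0) := tendsto_zpow_atTop_zero h5
        have h7 := tendsto_nhds_unique h3 h6
        rw [norm_eq_zero] at h7
        exact div_ne_zero hc₀0 hc₁0 h7
      · exact h5
      · exfalso
        have h6 : Tendsto (fun T : ℝ => T ^ (m - r)) atTop atTop := by
          obtain ⟨n, hn⟩ := Int.eq_ofNat_of_zero_le h5.le
          rw [hn]
          simp only [zpow_natCast]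
          refine tendsto_pow_atTop ?_
          intro h0
          rw [h0] at hn
          rw [hn] at h5
          exact absurd h5 (by simp)
        exact not_tendsto_nhds_of_tendsto_atTop h6 _ h3
    have h5 : m = (r : ℤ) := by linarith
    subst h5
    have h6 : c₀ = c₁ := by
      refine tendsto_nhds_unique h1 ?_
      simpa using h
    refine ⟨hm, ?_⟩
    rw [hl]
    rw [hc₀, hc₁] at h6
    have h7 := Complex.exp_ne_zero (-((r : ℂ) * Lam γ))
    have h8 : (((r : ℤ) : ℂ)) = (r : ℂ) := by push_cast; rfl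
    rw [h8] at h6
    rw [div_eq_div_iff hBc hlc] at h6
    exact mul_left_cancel₀ h7 (by linear_combination h6)

end Pool.Agent.V11290.UL
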