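import Pool.Agent.V11290.UL.Cmp
import Pool.Agent.Helper923.HMertens

/-! The upper bound in the theorem of Mertens over a number field. -/

set_option autoImplicit false

namespace Pool.Agent.V11290.UL

open NumberField IsDedekindDomain

/-- the rational case -/
theorem mert_rat : ∃ C : ℝ, 0 ≤ C ∧ ∀ T : ℝ, 1 ≤ T → ∀ B : Finset ℕ, (∀ p ∈ B, p.Prime) →
    ∑ p ∈ B, (p : ℝ)⁻¹ * (Real.log p / T * Real.exp (-(Real.log p / T))) ≤ C := by
  classical
  obtain ⟨C₀, hC₀⟩ := Pool.Agent.Helper923.HMertens.mertens_log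
  have hC0 : 0 ≤ C₀ := (abs_nonneg _).trans (hC₀ 1 le_rfl)
  have hs : Summable fun j : ℕ => Real.exp (-(j : ℝ)) * ((j : ℝ) + 1 + C₀) := by
    have h1 := Real.summable_pow_mul_exp_neg_nat_mul 1 (r := 1) one_pos
    have h0 := Real.summable_pow_mul_exp_neg_nat_mul 0 (r := 1) one_pos
    refine (h1.add (h0.mul_left (1 + C₀))).congr fun j => ?_
    simp only [pow_one, pow_zero, one_mul, neg_mul]
    ring
  refine ⟨∑' j : ℕ, Real.exp (-(j : ℝ)) * ((j : ℝ) + 1 + C₀), tsum_nonneg fun j => by positivity,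
    fun T hT B hB => ?_⟩
  have hT0 : 0 < T := by linarith
  set J : ℕ := B.sup (fun p => ⌊Real.log p / T⌋₊) + 1 with hJ
  have key : ∀ p ∈ B, (p : ℝ)⁻¹ * (Real.log p / T * Real.exp (-(Real.log p / T))) ≤
      ∑ j ∈ Finset.range J, if Real.log p / T ≤ (j : ℝ) + 1 then
        Real.log p / p / T * Real.exp (-(j : ℝ)) else 0 := by
    intro p hp
    have hp2 : (2 : ℝ) ≤ p := by exact_mod_cast (hB p hp).two_le
    have hlp : 0 ≤ Real.log p := Real.log_nonneg (by linarith)
    have hu : 0 ≤ Real.log p / T := by positivity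
    set j₀ : ℕ := ⌊Real.log p / T⌋₊ with hj₀
    have hj1 : j₀ ∈ Finset.range J := by
      rw [Finset.mem_range, hJ]
      exact Nat.lt_succ_of_le (Finset.le_sup (f := fun p : ℕ => ⌊Real.log p / T⌋₊) hp)
    refine le_trans ?_ (Finset.single_le_sum (f := fun j : ℕ => if Real.log p / T ≤ (j : ℝ) + 1 then
        Real.log p / p / T * Real.exp (-(j : ℝ)) else 0) (fun j _ => ?_) hj1)
    · rw [if_pos (Nat.lt_floor_add_one _).le]
      have h1 : Real.exp (-(Real.log p / T)) ≤ Real.exp (-(j₀ : ℝ)) :=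
        Real.exp_le_exp.2 (neg_le_neg (Nat.floor_le hu))
      calc (p : ℝ)⁻¹ * (Real.log p / T * Real.exp (-(Real.log p / T))) ≤
          (p : ℝ)⁻¹ * (Real.log p / T * Real.exp (-(j₀ : ℝ))) := by gcongr
        _ = _ := by
          field_simp
    · split_ifs
      · positivity
      · exact le_rfl
  refine (Finset.sum_le_sum key).trans ?_
  rw [Finset.sum_comm]
  refine le_trans (Finset.sum_le_sum fun j _ => ?_) (hs.sum_le_tsum (Finset.range J)
    (fun j _ => by positivity))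
  rw [← Finset.sum_filter, ← Finset.sum_mul, mul_comm]
  refine mul_le_mul_of_nonneg_left ?_ (Real.exp_pos _).le
  set N : ℕ := ⌊Real.exp (((j : ℝ) + 1) * T)⌋₊ with hN
  have hN1 : 1 ≤ N := by
    rw [hN, Nat.one_le_floor_iff]
    exact Real.one_le_exp (by positivity)
  have hN0 : (0 : ℝ) < N := by exact_mod_cast hN1
  have h1 : ∑ p ∈ B.filter (fun p : ℕ => Real.log p / T ≤ (j : ℝ) + 1), Real.log p / p / T ≤
      (∑ p ∈ (Finset.Icc 1 N).filter Nat.Prime, Real.log p / p) / T := by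
    rw [Finset.sum_div]
    refine Finset.sum_le_sum_of_subset_of_nonneg (fun p hp => ?_) (fun p hp _ => ?_)
    · rw [Finset.mem_filter] at hp ⊢
      have hpp := hB p hp.1
      refine ⟨Finset.mem_Icc.2 ⟨hpp.one_le, ?_⟩, hpp⟩
      rw [hN]
      refine Nat.le_floor ?_
      have hp0 : (0 : ℝ) < p := by exact_mod_cast hpp.pos
      rw [← Real.log_le_iff_le_exp hp0]
      have := hp.2
      rw [div_le_iff₀ hT0] at this
      exact this
    · rw [Finset.mem_filter] at hp
      have : (1 : ℝ) ≤ p := by exact_mod_cast hp.2.one_le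
      have := Real.log_nonneg this
      positivity
  have h2 := (abs_le.1 (hC₀ N hN1)).2
  have h3 : Real.log N ≤ ((j : ℝ) + 1) * T := by
    rw [Real.log_le_iff_le_exp hN0]
    exact Nat.floor_le (Real.exp_pos _).le
  refine h1.trans ?_
  rw [div_le_iff₀ hT0]
  nlinarith

variable {K : Type} [Field K] [NumberField K]

/-- The rational prime below a prime ideal (copied from `H927R2.RD.T10b`). -/
lemma norm_prime_power {P : Ideal (𝓞 K)} (h : P.IsPrime) (h0 : P ≠ ⊥) :
    ∃ (p : ℕ) (f : ℕ), p.Prime ∧ 1 ≤ f ∧ Ideal.absNorm P = p ^ f ∧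
      P.LiesOver (Ideal.span {(p : ℤ)}) := by
  classical
  have hmax : P.IsMaximal := h.isMaximal h0
  have := hmax
  obtain ⟨p, hp⟩ : ∃ p : ℤ, Ideal.span {p} = P.under ℤ := by
    obtain ⟨p, hp⟩ := (IsPrincipalIdealRing.principal (P.under ℤ)).principal
    exact ⟨p, hp.symm⟩
  have hne : P.under ℤ ≠ ⊥ := by
    intro hb
    exact h0 (Ideal.eq_bot_of_comap_eq_bot hb)
  have hpp : Prime p := by
    have hpr : (P.under ℤ).IsPrime := inferInstance
    rw [← hp] at hpr hne
    exact (Ideal.span_singleton_prime (by simpa using hne)).mp hpr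
  have hlo : P.LiesOver (Ideal.span {(p.natAbs : ℤ)}) := by
    constructor
    rw [← hp]
    simp
  have hnp : p.natAbs.Prime := Int.prime_iff_natAbs_prime.mp hpp
  have h1 := Ideal.absNorm_eq_pow_inertiaDeg' P hnp
  refine ⟨p.natAbs, (Ideal.span {(p.natAbs : ℤ)}).inertiaDeg' P, hnp, ?_, h1, hlo⟩
  by_contra h3
  have h4 : (Ideal.span {(p.natAbs : ℤ)}).inertiaDeg' P = 0 := by omega
  rw [h4, pow_zero, Ideal.absNorm_eq_one_iff] at h1
  exact hmax.ne_top h1

/-- At most `[K : ℚ]` primes over `p` (copied from `H927R2.RD.T10b`). -/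
lemma card_over_le {p : ℕ} (hp : p.Prime) (A : Finset (Ideal (𝓞 K)))
    (hA : ∀ P ∈ A, P.IsPrime ∧ P.LiesOver (Ideal.span {(p : ℤ)})) :
    A.card ≤ Module.finrank ℚ K := by
  classical
  have hp0 : Ideal.span {(p : ℤ)} ≠ ⊥ := by
    simpa using hp.ne_zero
  have hpr : (Ideal.span {(p : ℤ)}).IsPrime := by
    rw [Ideal.span_singleton_prime (by exact_mod_cast hp.ne_zero)]
    exact Nat.prime_iff_prime_int.mp hp
  have : (Ideal.span {(p : ℤ)}).IsMaximal := hpr.isMaximal hp0
  refine le_trans (Finset.card_le_card ?_)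
    (Ideal.card_primesOverFinset_le_finrank (S := 𝓞 K) (K := ℚ) (L := K) hp0)
  intro P hP
  rw [IsDedekindDomain.mem_primesOverFinset_iff hp0]
  exact ⟨(hA P hP).1, (hA P hP).2⟩

/-- the norm of a prime of a number field -/
noncomputable def qK (v : HeightOneSpectrum (𝓞 K)) : ℝ := (Ideal.absNorm v.asIdeal : ℝ)

/-- `x^{-1} (log x + 1) / T e^{-log x / T}` is decreasing -/
theorem phi_anti {T : ℝ} (hT : 1 ≤ T) {x y : ℝ} (hx : 1 ≤ x) (hxy : x ≤ y) :
    y⁻¹ * ((Real.log y + 1) / T * Real.exp (-(Real.log y / T))) ≤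
      x⁻¹ * ((Real.log x + 1) / T * Real.exp (-(Real.log x / T))) := by
  have hT0 : 0 < T := by linarith
  have hx0 : 0 < x := by linarith
  have hy0 : 0 < y := by linarith
  have hlx : 0 ≤ Real.log x := Real.log_nonneg hx
  have hlxy : Real.log x ≤ Real.log y := Real.log_le_log hx0 hxy
  have h1 : y⁻¹ * (Real.log y + 1) ≤ x⁻¹ * (Real.log x + 1) := by
    -- `log (y/x) ≤ y/x - 1`
    have h2 := Real.log_le_sub_one_of_pos (div_pos hy0 hx0)
    rw [Real.log_div hy0.ne' hx0.ne'] at h2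
    rw [inv_mul_eq_div, inv_mul_eq_div, div_le_div_iff₀ hy0 hx0]
    have h3 : y / x * x = y := by field_simp
    nlinarith [mul_nonneg hlx (sub_nonneg.2 hxy)]
  have h2 : Real.exp (-(Real.log y / T)) ≤ Real.exp (-(Real.log x / T)) := by
    apply Real.exp_le_exp.2
    gcongr
  calc y⁻¹ * ((Real.log y + 1) / T * Real.exp (-(Real.log y / T))) =
      (y⁻¹ * (Real.log y + 1)) / T * Real.exp (-(Real.log y / T)) := by ring
    _ ≤ (x⁻¹ * (Real.log x + 1)) / T * Real.exp (-(Real.log x / T)) := by gcongr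
    _ = _ := by ring

theorem mert_nf : Mert 1 (qK (K := K)) := by
  classical
  obtain ⟨C, hC0, hC⟩ := mert_rat
  have hl2 : 0 < Real.log 2 := Real.log_pos (by norm_num)
  refine ⟨Module.finrank ℚ K * ((1 + 1 / Real.log 2) * C), fun T hT A => ?_⟩
  have hT0 : 0 < T := by linarith
  choose π f hπ hf hn hl using fun v : HeightOneSpectrum (𝓞 K) =>
    norm_prime_power v.isPrime v.ne_bot
  set φ : ℝ → ℝ := fun x => x⁻¹ * ((Real.log x + 1) / T * Real.exp (-(Real.log x / T))) with hφ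
  have hφ0 : ∀ p : ℕ, p.Prime → 0 ≤ φ p := by
    intro p hp
    have h1 : (1 : ℝ) ≤ p := by exact_mod_cast hp.one_le
    have := Real.log_nonneg h1
    rw [hφ]
    positivity
  have h1 : ∀ v ∈ A, qK v ^ (-(2 * (1 : ℝ) - 1)) * (Real.log (qK v) / T *
      Real.exp (-(Real.log (qK v) / T))) ≤ φ (π v) := by
    intro v _
    have hp1 : (1 : ℝ) ≤ π v := by exact_mod_cast (hπ v).one_le
    have hle : (π v : ℝ) ≤ qK v := by
      unfold qK
      rw [hn v]
      exact_mod_cast Nat.le_self_pow (by have := hf v; omega) _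
    refine le_trans ?_ (phi_anti hT hp1 hle)
    have hq0 : 0 < qK v := by linarith
    rw [show -(2 * (1 : ℝ) - 1) = -1 by norm_num, Real.rpow_neg_one]
    gcongr
    linarith
  refine (Finset.sum_le_sum h1).trans ?_
  have h2 : ∑ v ∈ A, φ (π v) = ∑ p ∈ A.image π, ((A.filter fun v => π v = p).card : ℝ) * φ p := by
    rw [Finset.sum_comp (fun p : ℕ => φ p) π]
    simp
  rw [h2]
  have h3 : ∀ p ∈ A.image π, ((A.filter fun v => π v = p).card : ℝ) * φ p ≤
      Module.finrank ℚ K * φ p := by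
    intro p hp
    obtain ⟨v₀, -, rfl⟩ := Finset.mem_image.1 hp
    refine mul_le_mul_of_nonneg_right ?_ (hφ0 _ (hπ v₀))
    have h4 := card_over_le (K := K) (hπ v₀) ((A.filter fun v => π v = π v₀).image fun v => v.asIdeal)
      (by
        intro I hI
        obtain ⟨v, hv, rfl⟩ := Finset.mem_image.1 hI
        refine ⟨v.isPrime, ?_⟩
        rw [← (Finset.mem_filter.1 hv).2]
        exact hl v)
    rw [Finset.card_image_of_injective _ (fun v w h => HeightOneSpectrum.ext h)] at h4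
    exact_mod_cast h4
  refine (Finset.sum_le_sum h3).trans ?_
  rw [← Finset.mul_sum]
  refine mul_le_mul_of_nonneg_left ?_ (by positivity)
  have h5 : ∀ p ∈ A.image π, φ p ≤ (1 + 1 / Real.log 2) *
      ((p : ℝ)⁻¹ * (Real.log p / T * Real.exp (-(Real.log p / T)))) := by
    intro p hp
    obtain ⟨v₀, -, rfl⟩ := Finset.mem_image.1 hp
    have hp2 : (2 : ℝ) ≤ (π v₀ : ℝ) := by exact_mod_cast (hπ v₀).two_le
    have hlp : Real.log 2 ≤ Real.log (π v₀) := Real.log_le_log (by norm_num) hp2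
    have h6 : Real.log (π v₀) + 1 ≤ (1 + 1 / Real.log 2) * Real.log (π v₀) := by
      have h7 : 1 ≤ 1 / Real.log 2 * Real.log (π v₀) := by
        rw [one_div, inv_mul_eq_div, le_div_iff₀ hl2]
        linarith
      linarith
    calc φ (π v₀) = ((π v₀ : ℝ)⁻¹ * (1 / T) * Real.exp (-(Real.log (π v₀) / T))) *
          (Real.log (π v₀) + 1) := by rw [hφ]; ring
      _ ≤ ((π v₀ : ℝ)⁻¹ * (1 / T) * Real.exp (-(Real.log (π v₀) / T))) *
          ((1 + 1 / Real.log 2) * Real.log (π v₀)) := by gcongr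
      _ = _ := by ring
  refine (Finset.sum_le_sum h5).trans ?_
  rw [← Finset.mul_sum]
  refine mul_le_mul_of_nonneg_left (hC T hT _ ?_) (by positivity)
  intro p hp
  obtain ⟨v₀, -, rfl⟩ := Finset.mem_image.1 hp
  exact hπ v₀

/-- systems of dimension greater than one -/
theorem mert_gt {P : Type} {e : ℝ} {q : P → ℝ} (he : 1 < e) (h2 : ∀ v, 2 ≤ q v)
    (hs : ∀ σ : ℝ, e < σ → Summable fun v => q v ^ (-σ)) : Mert e q := by
  have hs1 := hs (2 * e - 1) (by linarith)
  refine ⟨∑' v, q v ^ (-(2 * e - 1)), fun T hT A => ?_⟩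
  have hT0 : 0 < T := by linarith
  refine le_trans (Finset.sum_le_sum fun v _ => ?_) (hs1.sum_le_tsum A fun v _ => ?_)
  · have hq : 0 < q v := by linarith [h2 v]
    have hu : 0 ≤ Real.log (q v) / T := div_nonneg (Real.log_nonneg (by linarith [h2 v])) hT0.le
    set u := Real.log (q v) / T
    have h3 : u * Real.exp (-u) ≤ 1 := by
      rw [Real.exp_neg, ← div_eq_mul_inv, div_le_one (Real.exp_pos _)]
      have := Real.add_one_le_exp u
      linarith
    calc q v ^ (-(2 * e - 1)) * (u * Real.exp (-u)) ≤ q v ^ (-(2 * e - 1)) * 1 := by gcongr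
      _ = _ := mul_one _
  · have hq : 0 < q v := by linarith [h2 v]
    positivity

end Pool.Agent.V11290.UL
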