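import Pool.Agent.W187.UR.NF

/-! Euler products of any degree over any system of primes, with the bounds of Deligne: the data of
the abstract theorems on rotated Mittag-Leffler means. -/

set_option autoImplicit false

namespace Pool.Agent.V11290.UL

open Complex Filter Topology Set
open Pool.Agent.W189.ML Pool.Agent.W189.LC Pool.Agent.W187.UR

/-- numerical data of an Euler product at its central point: `b v j` are the eigenvalues of Frobenius,
divided by `q_v` to the power of the central point; `e` is the dimension of the system of primes. -/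
structure Sys {P : Type} {d : ℕ} (e : ℝ) (q : P → ℝ) (b : P → Fin d → ℂ) : Prop where
  he : 1 ≤ e
  two_le : ∀ v, 2 ≤ q v
  sum : ∀ σ : ℝ, e < σ → Summable fun v => q v ^ (-σ)
  hb : ∀ v j, ‖b v j‖ ≤ q v ^ (1 / 2 - e)
  real : ∀ v (k : ℕ), (∑ j, b v j ^ k).im = 0

/-- the coefficients `∑_j b_j^k / k` -/
noncomputable def cfd {P : Type} {d : ℕ} (b : P → Fin d → ℂ) (x : P × ℕ) : ℝ :=
  (∑ j, b x.1 j ^ (x.2 + 1)).re / (x.2 + 1)

variable {P : Type} {d : ℕ} {e : ℝ} {q : P → ℝ} {b : P → Fin d → ℂ}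

theorem Sys.q_pos (E : Sys e q b) (v : P) : 0 < q v := by linarith [E.two_le v]

theorem Sys.pow_le (E : Sys e q b) {τ : ℝ} (hτ : 1 / 2 ≤ τ) (v : P) : q v ^ (-τ) ≤ 3 / 4 := by
  have hq := E.two_le v
  calc q v ^ (-τ) ≤ q v ^ (-(1 / 2 : ℝ)) :=
        Real.rpow_le_rpow_of_exponent_le (by linarith) (by linarith)
    _ ≤ 2 ^ (-(1 / 2 : ℝ)) := Real.rpow_le_rpow_of_nonpos (by norm_num) hq (by norm_num)
    _ ≤ 3 / 4 := by
      have h1 : ((2 : ℝ) ^ (-(1 / 2 : ℝ))) ^ 2 = 1 / 2 := by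
        rw [← Real.rpow_natCast, ← Real.rpow_mul (by norm_num)]
        norm_num
      have h2 : (0 : ℝ) ≤ 2 ^ (-(1 / 2 : ℝ)) := by positivity
      nlinarith

theorem Sys.fr_nonneg (E : Sys e q b) (x : P × ℕ) : 0 ≤ fr q x := by
  unfold fr
  have := Real.log_nonneg (by linarith [E.two_le x.1] : 1 ≤ q x.1)
  positivity

theorem Sys.exp_fr (E : Sys e q b) (σ : ℝ) (x : P × ℕ) :
    Real.exp (-(σ * fr q x)) = (q x.1 ^ (-σ)) ^ (x.2 + 1) := by
  have hq0 : 0 < q x.1 := E.q_pos x.1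
  rw [← Real.rpow_natCast, ← Real.rpow_mul hq0.le, Real.rpow_def_of_pos hq0]
  unfold fr
  congr 1
  push_cast
  ring

theorem Sys.psum_norm (E : Sys e q b) (v : P) (k : ℕ) :
    ‖∑ j, b v j ^ k‖ ≤ d * (q v ^ (1 / 2 - e)) ^ k := by
  refine (norm_sum_le _ _).trans ?_
  calc ∑ j : Fin d, ‖b v j ^ k‖ ≤ ∑ _j : Fin d, (q v ^ (1 / 2 - e)) ^ k := by
        refine Finset.sum_le_sum fun j _ => ?_
        rw [norm_pow]
        exact pow_le_pow_left₀ (norm_nonneg _) (E.hb v j) k
    _ = _ := by simp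

theorem Sys.cfd_le (E : Sys e q b) (x : P × ℕ) :
    |cfd b x| ≤ d * (q x.1 ^ (1 / 2 - e)) ^ (x.2 + 1) := by
  unfold cfd
  have h1 : (1 : ℝ) ≤ x.2 + 1 := by
    have : (0 : ℝ) ≤ x.2 := x.2.cast_nonneg
    linarith
  rw [abs_div, abs_of_pos (by positivity : (0 : ℝ) < (x.2 : ℝ) + 1)]
  refine (div_le_self (abs_nonneg _) h1).trans ?_
  exact (Complex.abs_re_le_norm _).trans (E.psum_norm x.1 (x.2 + 1))

theorem Sys.term_le (E : Sys e q b) {σ : ℝ} (hσ : 0 ≤ σ) (x : P × ℕ) :
    |cfd b x| * Real.exp (-(σ * fr q x)) ≤ d * q x.1 ^ (-(e - 1 / 2 + σ)) * (3 / 4) ^ x.2 := by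
  have hq0 := E.q_pos x.1
  rw [E.exp_fr]
  set y := q x.1 ^ (-(e - 1 / 2 + σ)) with hy
  have hy0 : 0 ≤ y := by positivity
  have hy1 : y ≤ 3 / 4 := E.pow_le (by linarith [E.he]) x.1
  have hy2 : q x.1 ^ (1 / 2 - e) * q x.1 ^ (-σ) = y := by
    rw [hy, ← Real.rpow_add hq0]
    congr 1
    ring
  calc |cfd b x| * (q x.1 ^ (-σ)) ^ (x.2 + 1) ≤
      d * (q x.1 ^ (1 / 2 - e)) ^ (x.2 + 1) * (q x.1 ^ (-σ)) ^ (x.2 + 1) := by
        gcongr
        exact E.cfd_le x
    _ = d * y ^ (x.2 + 1) := by rw [mul_assoc, ← mul_pow, hy2]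
    _ = d * y * y ^ x.2 := by rw [pow_succ]; ring
    _ ≤ d * y * (3 / 4) ^ x.2 := by gcongr

theorem Sys.summable (E : Sys e q b) {σ : ℝ} (hσ : 1 / 2 < σ) :
    Summable fun x => |cfd b x| * Real.exp (-(σ * fr q x)) := by
  have hg : Summable fun n : ℕ => (3 / 4 : ℝ) ^ n :=
    summable_geometric_of_lt_one (by norm_num) (by norm_num)
  have h1 := ((E.sum (e - 1 / 2 + σ) (by linarith)).mul_left (d : ℝ)).mul_of_nonneg hg
    (fun v => by
      have := E.q_pos v
      show 0 ≤ (d : ℝ) * q v ^ (-(e - 1 / 2 + σ))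
      positivity) (fun n => by positivity)
  exact Summable.of_nonneg_of_le (fun x => by positivity) (fun x => E.term_le (by linarith) x) h1

/-- the Euler factor at `v` in terms of the series -/
theorem Sys.factor_sum (E : Sys e q b) {w : ℂ} (hw : 0 ≤ w.re) (v : P) :
    HasSum (fun n : ℕ => (cfd b (v, n) : ℂ) * exp (-(w * fr q (v, n))))
      (∑' n : ℕ, (cfd b (v, n) : ℂ) * exp (-(w * fr q (v, n)))) ∧
    exp (∑' n : ℕ, (cfd b (v, n) : ℂ) * exp (-(w * fr q (v, n)))) =
      ∏ j, (1 - b v j * (q v : ℂ) ^ (-w))⁻¹ := by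
  have hq0 := E.q_pos v
  have hqc : (q v : ℂ) ≠ 0 := by exact_mod_cast hq0.ne'
  set x : ℂ := (q v : ℂ) ^ (-w) with hx
  have hxn : ‖x‖ = q v ^ (-w.re) := by
    rw [hx, Complex.norm_cpow_eq_rpow_re_of_pos hq0]
    simp
  have hz : ∀ j, ‖b v j * x‖ < 1 := by
    intro j
    rw [norm_mul, hxn]
    calc ‖b v j‖ * q v ^ (-w.re) ≤ q v ^ (1 / 2 - e) * q v ^ (-w.re) := by
          gcongr
          exact E.hb v j
      _ = q v ^ (-(e - 1 / 2 + w.re)) := by
          rw [← Real.rpow_add hq0]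
          congr 1
          ring
      _ ≤ 3 / 4 := E.pow_le (by linarith [E.he]) v
      _ < 1 := by norm_num
  have hterm : ∀ n : ℕ, (cfd b (v, n) : ℂ) * exp (-(w * fr q (v, n))) =
      ∑ j, (b v j * x) ^ (n + 1) / ((n + 1 : ℕ) : ℂ) := by
    intro n
    have e1 : exp (-(w * fr q (v, n))) = x ^ (n + 1) := by
      rw [hx, Complex.cpow_def_of_ne_zero hqc, ← Complex.exp_nat_mul]
      congr 1
      unfold fr
      rw [← Complex.ofReal_log hq0.le]
      push_cast
      ring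
    have e2 : ((cfd b (v, n) : ℝ) : ℂ) = (∑ j, b v j ^ (n + 1)) / ((n + 1 : ℕ) : ℂ) := by
      unfold cfd
      push_cast
      congr 1
      apply Complex.ext
      · simp
      · rw [Complex.ofReal_im, E.real]
    rw [e1, e2, ← Finset.sum_div, div_mul_eq_mul_div, Finset.sum_mul]
    congr 1
    exact Finset.sum_congr rfl fun j _ => by rw [mul_pow]
  have hs : ∀ z : ℂ, ‖z‖ < 1 →
      HasSum (fun n : ℕ => z ^ (n + 1) / ((n + 1 : ℕ) : ℂ)) (-log (1 - z)) := by
    intro z hz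
    have := Complex.hasSum_taylorSeries_neg_log hz
    rw [← hasSum_nat_add_iff' 1] at this
    simpa using this
  have hS : HasSum (fun n : ℕ => (cfd b (v, n) : ℂ) * exp (-(w * fr q (v, n))))
      (∑ j, -log (1 - b v j * x)) := by
    simp only [hterm]
    exact hasSum_sum fun j _ => hs _ (hz j)
  refine ⟨hS.summable.hasSum, ?_⟩
  rw [hS.tsum_eq, Complex.exp_sum]
  refine Finset.prod_congr rfl fun j _ => ?_
  rw [Complex.exp_neg, Complex.exp_log]
  intro h
  rw [sub_eq_zero] at h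
  have := hz j
  rw [← h] at this
  simp at this

theorem Sys.csummable (E : Sys e q b) {w : ℂ} (hw : 1 / 2 < w.re) :
    Summable fun x : P × ℕ => (cfd b x : ℂ) * exp (-(w * fr q x)) := by
  refine Summable.of_norm_bounded (E.summable hw) fun x => ?_
  rw [norm_mul, Complex.norm_real, Real.norm_eq_abs, Complex.norm_exp]
  have : (-(w * fr q x)).re = -(w.re * fr q x) := by rw [Complex.neg_re, Complex.re_mul_ofReal]
  rw [this]

/-- the Euler product is the exponential of the series -/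
theorem Sys.hasProd (E : Sys e q b) {w : ℂ} (hw : 1 / 2 < w.re) :
    HasProd (fun v => ∏ j, (1 - b v j * (q v : ℂ) ^ (-w))⁻¹)
      (exp (ser (fr q) (cfd b) w)) := by
  have h1 : HasSum (fun x : P × ℕ => (cfd b x : ℂ) * exp (-(w * fr q x)))
      (ser (fr q) (cfd b) w) := (E.csummable hw).hasSum
  have h2 := h1.prod_fiberwise (fun v => (E.factor_sum (by linarith) v).1)
  have h3 := h2.cexp
  have h4 : (Complex.exp ∘ fun v => ∑' n : ℕ, (cfd b (v, n) : ℂ) * exp (-(w * fr q (v, n)))) =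
      fun v => ∏ j, (1 - b v j * (q v : ℂ) ^ (-w))⁻¹ := by
    funext v
    exact (E.factor_sum (by linarith) v).2
  rw [h4] at h3
  exact h3

theorem Sys.ser_analytic (E : Sys e q b) {w : ℂ} (hw : 1 / 2 < w.re) :
    AnalyticAt ℂ (ser (fr q) (cfd b)) w := by
  set σ : ℝ := (1 / 2 + w.re) / 2 with hσ
  have hσ1 : 1 / 2 < σ := by rw [hσ]; linarith
  have hσw : σ < w.re := by rw [hσ]; linarith
  have hopen : IsOpen {z : ℂ | σ < z.re} := isOpen_lt continuous_const Complex.continuous_re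
  have h1 : DifferentiableOn ℂ (ser (fr q) (cfd b)) {z : ℂ | σ < z.re} := by
    unfold ser
    refine differentiableOn_tsum_of_summable_norm (E.summable hσ1) (fun i => ?_) hopen
      (fun i z hz => ?_)
    · exact Differentiable.differentiableOn (by fun_prop)
    · rw [norm_mul, Complex.norm_real, Real.norm_eq_abs, Complex.norm_exp]
      refine mul_le_mul_of_nonneg_left ?_ (abs_nonneg _)
      apply Real.exp_le_exp.2
      have h2 : (-(z * fr q i)).re = -(z.re * fr q i) := by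
        rw [Complex.neg_re, Complex.re_mul_ofReal]
      rw [h2]
      have hz' : σ < z.re := hz
      have := E.fr_nonneg i
      nlinarith
  exact h1.analyticAt (hopen.mem_nhds hσw)

/-- `Φ` is the continuation of the Euler product, in the variable `w = s - (central point)` -/
structure Cont (q : P → ℝ) (b : P → Fin d → ℂ) (Φ : ℂ → ℂ) : Prop where
  mero : ∀ x ∈ Icc (0 : ℝ) (1 / 2), MeromorphicAt Φ (x : ℂ)
  prod : ∀ w : ℂ, 1 / 2 < w.re → HasProd (fun v => ∏ j, (1 - b v j * (q v : ℂ) ^ (-w))⁻¹) (Φ w)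

variable {Φ : ℂ → ℂ}

theorem Cont.eq (C : Cont q b Φ) (E : Sys e q b) {w : ℂ} (hw : 1 / 2 < w.re) :
    Φ w = exp (ser (fr q) (cfd b) w) := (C.prod w hw).unique (E.hasProd hw)

theorem Cont.analytic (C : Cont q b Φ) (E : Sys e q b) {w : ℂ} (hw : 1 / 2 < w.re) :
    AnalyticAt ℂ Φ w := by
  have hopen : IsOpen {z : ℂ | 1 / 2 < z.re} := isOpen_lt continuous_const Complex.continuous_re
  refine ((E.ser_analytic hw).cexp).congr ?_
  filter_upwards [hopen.mem_nhds hw] with z hz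
  exact (C.eq E hz).symm

theorem Cont.order_right (C : Cont q b Φ) (E : Sys e q b) {w : ℂ} (hw : 1 / 2 < w.re) :
    meromorphicOrderAt Φ w = 0 := by
  have h1 : Φ w ≠ 0 := by
    rw [C.eq E hw]
    exact Complex.exp_ne_zero _
  rw [(C.analytic E hw).meromorphicOrderAt_eq, (C.analytic E hw).analyticOrderAt_eq_zero.2 h1]
  rfl

theorem Cont.mdata (C : Cont q b Φ) (E : Sys e q b) : MData (fr q) (cfd b) Φ where
  lam_pos := E.fr_nonneg
  sum := fun σ hσ => E.summable (by linarith)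
  mero := fun x hx => by
    by_cases h : x ≤ 1 / 2
    · exact C.mero x ⟨hx.1, h⟩
    · push Not at h
      exact (C.analytic E (by simpa using h)).meromorphicAt
  eq := fun w hw => C.eq E (by linarith)

end Pool.Agent.V11290.UL
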