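import Pool.Agent.V11290.UL.NFM

/-! The universal law for the rotated sums of the logarithms of the local factors. -/

set_option autoImplicit false

namespace Pool.Agent.V11290.UL

open Complex Filter Topology Set
open Pool.Agent.W189.ML Pool.Agent.W189.LC Pool.Agent.W187.UR

section abs

variable {ι : Type} {lam c : ι → ℝ} {Φ : ℂ → ℂ}

theorem rmean_high [Countable ι] (D : MData lam c Φ)
    (hr : ∀ x : ℝ, 1 / 2 < x → meromorphicOrderAt Φ (x : ℂ) = 0) {m : ℤ}
    (hm : meromorphicOrderAt Φ 0 = m) {γ : ℝ} (hγ : Real.pi / 2 < γ) :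
    ∃ C T₀ : ℝ, ∀ T ≥ T₀, |rmean lam (fun i => -c i) γ T - m * Real.log T| ≤ C := by
  obtain ⟨m', l, hm', -, -, hO, -⟩ := mdata_law D hr hγ
  have hmm : m' = m := by
    rw [hm] at hm'
    exact (by exact_mod_cast hm'.symm)
  subst hmm
  obtain ⟨B, hB⟩ := hO.bound
  obtain ⟨T₁, hT₁⟩ := eventually_atTop.1 hB
  refine ⟨|B| + ‖-(m' : ℂ) * Lam γ - Real.log |l| + Real.pi * exc Φ * Complex.I‖,
    max T₁ 1, fun T hT => ?_⟩
  have hT1 : 1 ≤ T := (le_max_right _ _).trans hT
  have hT0 : 0 < T := by linarith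
  have h1 := hT₁ T ((le_max_left _ _).trans hT)
  have h2 := (cmean_eq D.sdata (γ := γ) hT1 (le_refl (2 * T))).2
  rw [cmean_neg] at h2
  have h3 : rmean lam (fun i => -c i) γ T - m' * Real.log T =
      ((-cmean lam c γ T - (m' * (Real.log T - Lam γ) - Real.log |l| +
        Real.pi * exc Φ * Complex.I)) +
      (-(m' : ℂ) * Lam γ - Real.log |l| + Real.pi * exc Φ * Complex.I)).re := by
    rw [← h2]
    have h4 : (-cmean lam c γ T - (m' * (Real.log T - Lam γ) - Real.log |l| +
        Real.pi * exc Φ * Complex.I)) +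
      (-(m' : ℂ) * Lam γ - Real.log |l| + Real.pi * exc Φ * Complex.I) =
      -cmean lam c γ T - ((m' * Real.log T : ℝ) : ℂ) := by
      push_cast
      ring
    rw [h4, Complex.sub_re, Complex.ofReal_re]
  rw [h3]
  refine (Complex.abs_re_le_norm _).trans ((norm_add_le _ _).trans ?_)
  gcongr
  refine h1.trans ?_
  rw [Real.norm_eq_abs, abs_of_pos (by positivity : 0 < 1 / T)]
  calc B * (1 / T) ≤ |B| * (1 / T) := by
        gcongr
        exact le_abs_self B
    _ ≤ |B| * 1 := by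
        gcongr
        rw [div_le_one hT0]
        exact hT1
    _ = |B| := mul_one _

end abs

variable {P : Type} {d : ℕ} {e : ℝ} {q : P → ℝ} {b : P → Fin d → ℂ} {Φ : ℂ → ℂ}

theorem Cont.order_ne_top (C : Cont q b Φ) (E : Sys e q b) {x : ℝ} (hx : 0 ≤ x) :
    meromorphicOrderAt Φ (x : ℂ) ≠ ⊤ := by
  by_cases h : x ≤ 2
  · exact (C.mdata E).order_ne_top ⟨hx, h⟩
  · push Not at h
    rw [C.order_right E (by simp; linarith)]
    simp

theorem Cont.order_right' (C : Cont q b Φ) (E : Sys e q b) (x : ℝ) (hx : 1 / 2 < x) :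
    meromorphicOrderAt Φ (x : ℂ) = 0 := C.order_right E (by simpa using hx)

/-- **rotations by more than a right angle** -/
theorem Cont.high [Countable P] (C : Cont q b Φ) (E : Sys e q b) (hM : Mert e q) {m : ℤ}
    (hm : meromorphicOrderAt Φ 0 = m) {c : ℝ} (hc : Real.pi / 2 < c) :
    ∃ B T₀ : ℝ, ∀ T ≥ T₀, |logSum q b c T - m * Real.log T| ≤ B := by
  obtain ⟨B₁, T₁, h1⟩ := rmean_high (C.mdata E) (C.order_right' E) hm hc
  obtain ⟨B₂, h2⟩ := E.compare hM c
  refine ⟨B₂ + B₁, max T₁ 1, fun T hT => ?_⟩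
  have h3 := h1 T ((le_max_left _ _).trans hT)
  have h4 := h2 T ((le_max_right _ _).trans hT)
  have h5 : logSum q b c T - m * Real.log T =
      (logSum q b c T - rmean (fr q) (fun x => -cfd b x) c T) +
      (rmean (fr q) (fun x => -cfd b x) c T - m * Real.log T) := by ring
  rw [h5]
  exact (abs_add_le _ _).trans (add_le_add h4 h3)

/-- rotations by less than a right angle, no zeros and poles -/
theorem Cont.low_regular [Countable P] (C : Cont q b Φ) (E : Sys e q b) (hM : Mert e q) {m : ℤ}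
    (hm : meromorphicOrderAt Φ 0 = m)
    (hz : ∀ x ∈ Ioc (0 : ℝ) (1 / 2), meromorphicOrderAt Φ (x : ℂ) = 0) {c : ℝ} (hc : 0 ≤ c) :
    ∃ B T₀ : ℝ, ∀ T ≥ T₀, |logSum q b c T - m * Real.log T| ≤ B := by
  have hz' : ∀ x ∈ Ioc (0 : ℝ) 1, meromorphicOrderAt Φ (x : ℂ) = 0 := by
    intro x hx
    by_cases h : x ≤ 1 / 2
    · exact hz x ⟨hx.1, h⟩
    · push Not at h
      exact C.order_right' E x h
  obtain ⟨B₁, T₁, h1⟩ := low_full (C.mdata E) hm hz' hc
  obtain ⟨B₂, h2⟩ := E.compare hM c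
  refine ⟨B₂ + B₁, max T₁ 1, fun T hT => ?_⟩
  have h3 := h1 T ((le_max_left _ _).trans hT)
  have h4 := h2 T ((le_max_right _ _).trans hT)
  have h5 : logSum q b c T - m * Real.log T =
      (logSum q b c T - rmean (fr q) (fun x => -cfd b x) c T) +
      (rmean (fr q) (fun x => -cfd b x) c T - m * Real.log T) := by ring
  rw [h5]
  exact (abs_add_le _ _).trans (add_le_add h4 h3)

/-- rotations by less than a right angle, a zero or a pole: growth -/
theorem Cont.low_growth [Countable P] (C : Cont q b Φ) (E : Sys e q b) (hM : Mert e q) {x₀ : ℝ}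
    (h0 : 0 < x₀) {m : ℤ} (hm0 : m ≠ 0) (hm : meromorphicOrderAt Φ (x₀ : ℂ) = m)
    (hz : ∀ x : ℝ, x₀ < x → meromorphicOrderAt Φ (x : ℂ) = 0) {c : ℝ} (hc : 0 ≤ c)
    (hc2 : c < Real.pi / 2) {y : ℝ} (hy : y < x₀) (B : ℝ) :
    ∃ᶠ T : ℝ in atTop, Real.exp (Real.exp (y * T)) + B * T ≤
      (m.sign : ℝ) * logSum q b c T := by
  have D := C.mdata E
  have hx1 : x₀ ≤ 1 := by
    by_contra h
    push Not at h
    rw [C.order_right' E x₀ (by linarith)] at hm
    exact hm0 (by exact_mod_cast hm.symm)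
  -- the other zeros and poles
  obtain ⟨x₀', x₁, h3, h4, h5, h6, m', hm0', hm', h7⟩ := D.rightmost (fun h => by
    have := h x₀ ⟨h0, hx1⟩
    rw [hm] at this
    exact hm0 (by exact_mod_cast this))
  have hxx : x₀' = x₀ := by
    rcases lt_trichotomy x₀' x₀ with h | h | h
    · exfalso
      have h8 := h7 x₀ ⟨by linarith, by linarith⟩ (by linarith)
      rw [hm] at h8
      exact hm0 (by exact_mod_cast h8)
    · exact h
    · exfalso
      have h8 := hz x₀' h
      rw [hm'] at h8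
      exact hm0' (by exact_mod_cast h8)
  subst hxx
  have hmm : m' = m := by
    rw [hm] at hm'
    exact (by exact_mod_cast hm'.symm)
  subst hmm
  obtain ⟨B₂, h2⟩ := E.compare hM c
  have hsg1 : |(m'.sign : ℝ)| ≤ 1 := by
    rcases Int.sign_trichotomy m' with h | h | h <;> rw [h] <;> simp
  have hB2 : 0 ≤ B₂ := (abs_nonneg _).trans (h2 1 le_rfl)
  refine ((low_large D h5 h6 h4 hm0 hm' h7 hc hc2 hy (|B| + B₂)).and_eventually
    (eventually_ge_atTop (1 : ℝ))).mono ?_
  rintro T ⟨h8, h9⟩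
  have h10 := h2 T h9
  have h11 : |(m'.sign : ℝ) * (logSum q b c T - rmean (fr q) (fun x => -cfd b x) c T)| ≤ B₂ := by
    rw [abs_mul]
    calc _ ≤ 1 * |logSum q b c T - rmean (fr q) (fun x => -cfd b x) c T| := by gcongr
      _ ≤ _ := by rw [one_mul]; exact h10
  have h12 := (abs_le.1 h11).1
  have h13 := le_abs_self B
  have h14 := abs_nonneg B
  nlinarith

/-- **the sharp transition at the right angle** -/
theorem Cont.low_iff [Countable P] (C : Cont q b Φ) (E : Sys e q b) (hM : Mert e q) {m : ℤ}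
    (hm : meromorphicOrderAt Φ 0 = m) {c : ℝ} (hc : 0 ≤ c) (hc2 : c < Real.pi / 2) :
    (∃ B T₀ : ℝ, ∀ T ≥ T₀, |logSum q b c T - m * Real.log T| ≤ B) ↔
      ∀ x ∈ Ioc (0 : ℝ) (1 / 2), meromorphicOrderAt Φ (x : ℂ) = 0 := by
  constructor
  · rintro ⟨B, T₀, hB⟩
    by_contra hne
    have D := C.mdata E
    obtain ⟨x₀, x₁, h3, h4, h5, h6, n, hn0, hn, h7⟩ := D.rightmost (fun h => hne fun x hx =>
      h x ⟨hx.1, by linarith [hx.2]⟩)
    have hright : ∀ x : ℝ, x₀ < x → meromorphicOrderAt Φ (x : ℂ) = 0 := by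
      intro x hx
      by_cases h : x ≤ 2
      · exact h7 x ⟨by linarith, h⟩ (by linarith)
      · push Not at h
        exact C.order_right' E x (by linarith)
    have h8 := C.low_growth E hM h3 hn0 hn hright hc hc2 (y := 0) h3 (|(m : ℝ)| + |B|)
    have e1 : ∀ᶠ T : ℝ in atTop, Real.log T ≤ T := by
      filter_upwards [eventually_gt_atTop (0 : ℝ)] with T hT
      exact (Real.log_le_sub_one_of_pos hT).trans (by linarith)
    obtain ⟨T, h9, h10, h11, h12⟩ := (h8.and_eventually (e1.and ((eventually_ge_atTop T₀).and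
      (eventually_ge_atTop (1 : ℝ))))).exists
    have h13 := hB T h11
    have hsg1 : |(n.sign : ℝ)| ≤ 1 := by
      rcases Int.sign_trichotomy n with h | h | h <;> rw [h] <;> simp
    have hl0 : 0 ≤ Real.log T := Real.log_nonneg h12
    have h14 : |logSum q b c T| ≤ |B| + |(m : ℝ)| * T := by
      have h15 : logSum q b c T = (logSum q b c T - m * Real.log T) + m * Real.log T := by ring
      rw [h15]
      refine (abs_add_le _ _).trans (add_le_add (h13.trans (le_abs_self B)) ?_)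
      rw [abs_mul, abs_of_nonneg hl0]
      gcongr
    have h15 : (n.sign : ℝ) * logSum q b c T ≤ |B| + |(m : ℝ)| * T := by
      refine (le_abs_self _).trans ?_
      rw [abs_mul]
      calc |(n.sign : ℝ)| * |logSum q b c T| ≤ 1 * |logSum q b c T| := by gcongr
        _ ≤ _ := by rw [one_mul]; exact h14
    have h16 := Real.exp_pos (Real.exp (0 * T))
    have h17 := abs_nonneg B
    nlinarith
  · intro hz
    exact C.low_regular E hM hm hz hc

end Pool.Agent.V11290.UL
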